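import Mathlib

/-!
# A PFA-computable language whose syntactic convex monoid is not finitely presentable

The language is `L w = (2 ^ (-|w|) + 3 ^ (-|w|)) / 2`. Its syntactic convex monoid is the convex hull of
the points `(2 ^ (-n), 3 ^ (-n))` with the componentwise multiplication.
-/

set_option autoImplicit false

open Polynomial

namespace Pool.Agent.Results.MP_492578_lc.NotFinPres

/-! ## Convex monoids -/

/-- A convex monoid: a monoid with operations `cc r x y = r x + (1 - r) y` for `r` in the unit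
interval, that satisfy the laws of convex combinations, and an affine multiplication. -/
class ConvexMonoid (M : Type) extends Monoid M where
  /-- the convex combinations -/
  cc : unitInterval → M → M → M
  cc_one : ∀ x y : M, cc 1 x y = x
  cc_self : ∀ (r : unitInterval) (x : M), cc r x x = x
  cc_symm : ∀ (r : unitInterval) (x y : M), cc r x y = cc (unitInterval.symm r) y x
  cc_assoc : ∀ (p q r s : unitInterval) (x y z : M), (r : ℝ) = p * q →
    (1 - r : ℝ) * s = q * (1 - p) → cc q (cc p x y) z = cc r x (cc s y z)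
  cc_mul : ∀ (r : unitInterval) (x y z : M), cc r x y * z = cc r (x * z) (y * z)
  mul_cc : ∀ (r : unitInterval) (x y z : M), x * cc r y z = cc r (x * y) (x * z)

open ConvexMonoid

/-- An isomorphism of convex monoids. -/
structure Iso (M N : Type) [ConvexMonoid M] [ConvexMonoid N] where
  /-- the bijection -/
  toEquiv : M ≃ N
  map_one : toEquiv 1 = 1
  map_mul : ∀ x y : M, toEquiv (x * y) = toEquiv x * toEquiv y
  map_cc : ∀ (r : unitInterval) (x y : M), toEquiv (cc r x y) = cc r (toEquiv x) (toEquiv y)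

/-- A congruence of a convex monoid. -/
structure Cong (M : Type) [ConvexMonoid M] where
  /-- the relation -/
  rel : M → M → Prop
  equiv : Equivalence rel
  cc : ∀ (r : unitInterval) (x x' y y' : M), rel x x' → rel y y' →
    rel (ConvexMonoid.cc r x y) (ConvexMonoid.cc r x' y')
  mul : ∀ x x' y y' : M, rel x x' → rel y y' → rel (x * y) (x' * y')

/-- The setoid of a congruence. -/
def Cong.setoid {M : Type} [ConvexMonoid M] (C : Cong M) : Setoid M := ⟨C.rel, C.equiv⟩

/-- The quotient by a congruence. -/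
def Cong.Quot {M : Type} [ConvexMonoid M] (C : Cong M) : Type := Quotient C.setoid

/-- The class of an element. -/
def Cong.cls {M : Type} [ConvexMonoid M] (C : Cong M) (x : M) : C.Quot := Quotient.mk C.setoid x

instance {M : Type} [ConvexMonoid M] (C : Cong M) : ConvexMonoid C.Quot where
  mul := Quotient.map₂ (fun x y : M => x * y) fun x x' h y y' h' => C.mul x x' y y' h h'
  one := C.cls 1
  mul_assoc := by
    rintro ⟨x⟩ ⟨y⟩ ⟨z⟩
    exact congrArg C.cls (mul_assoc x y z)
  one_mul := by
    rintro ⟨x⟩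
    exact congrArg C.cls (one_mul x)
  mul_one := by
    rintro ⟨x⟩
    exact congrArg C.cls (mul_one x)
  cc r := Quotient.map₂ (cc r) fun x x' h y y' h' => C.cc r x x' y y' h h'
  cc_one := by
    rintro ⟨x⟩ ⟨y⟩
    exact congrArg C.cls (cc_one x y)
  cc_self := by
    rintro r ⟨x⟩
    exact congrArg C.cls (cc_self r x)
  cc_symm := by
    rintro r ⟨x⟩ ⟨y⟩
    exact congrArg C.cls (cc_symm r x y)
  cc_assoc := by
    rintro p q r s ⟨x⟩ ⟨y⟩ ⟨z⟩ h h'
    exact congrArg C.cls (cc_assoc p q r s x y z h h')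
  cc_mul := by
    rintro r ⟨x⟩ ⟨y⟩ ⟨z⟩
    exact congrArg C.cls (cc_mul r x y z)
  mul_cc := by
    rintro r ⟨x⟩ ⟨y⟩ ⟨z⟩
    exact congrArg C.cls (mul_cc r x y z)

/-- The congruence generated by a set of pairs. -/
def gen {M : Type} [ConvexMonoid M] (R : Set (M × M)) : Cong M where
  rel x y := ∀ C : Cong M, (∀ p ∈ R, C.rel p.1 p.2) → C.rel x y
  equiv := ⟨fun x C _ => C.equiv.refl x, fun h C hC => C.equiv.symm (h C hC),
    fun h h' C hC => C.equiv.trans (h C hC) (h' C hC)⟩
  cc r x x' y y' h h' := fun C hC => C.cc r x x' y y' (h C hC) (h' C hC)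
  mul x x' y y' h h' := fun C hC => C.mul x x' y y' (h C hC) (h' C hC)

/-! ## Distributions -/

/-- The finitely supported probability distributions on `W`. -/
def Dist (W : Type) : Type :=
  {f : MonoidAlgebra ℝ W // (∀ w, 0 ≤ f.coeff w) ∧ f.coeff.sum (fun _ r => r) = 1}

/-- The total mass. -/
noncomputable def mass (W : Type) [Monoid W] : MonoidAlgebra ℝ W →ₐ[ℝ] ℝ :=
  MonoidAlgebra.lift ℝ ℝ W 1

theorem mass_apply {W : Type} [Monoid W] (f : MonoidAlgebra ℝ W) :
    mass W f = f.coeff.sum (fun _ r => r) := by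
  rw [mass, MonoidAlgebra.lift_apply]
  simp

theorem nonneg_mul {W : Type} [Monoid W] {f g : MonoidAlgebra ℝ W} (hf : ∀ w, 0 ≤ f.coeff w)
    (hg : ∀ w, 0 ≤ g.coeff w) (w : W) : 0 ≤ (f * g).coeff w := by
  classical
  rw [MonoidAlgebra.coeff_mul]
  refine Finset.sum_nonneg fun a _ => Finset.sum_nonneg fun b _ => ?_
  dsimp only
  split_ifs
  · exact mul_nonneg (hf a) (hg b)
  · exact le_rfl

/-- The point mass. -/
noncomputable def point {W : Type} [Monoid W] (w : W) : Dist W :=
  ⟨MonoidAlgebra.single w 1, fun v => by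
    classical
    rw [MonoidAlgebra.coeff_single, Finsupp.single_apply]
    split_ifs <;> norm_num, by
    rw [← mass_apply, mass, MonoidAlgebra.lift_single]
    simp⟩

/-- The distributions on a monoid form a convex monoid with the convolution. -/
noncomputable instance (W : Type) [Monoid W] : ConvexMonoid (Dist W) where
  mul f g := ⟨f.1 * g.1, nonneg_mul f.2.1 g.2.1, by
    rw [← mass_apply, map_mul, mass_apply, mass_apply, f.2.2, g.2.2, one_mul]⟩
  one := point 1
  mul_assoc f g h := Subtype.ext (mul_assoc f.1 g.1 h.1)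
  one_mul f := Subtype.ext (one_mul f.1)
  mul_one f := Subtype.ext (mul_one f.1)
  cc r f g := ⟨(r : ℝ) • f.1 + (1 - r : ℝ) • g.1, fun w => by
    have h1 : 0 ≤ (r : ℝ) * f.1.coeff w := mul_nonneg r.2.1 (f.2.1 w)
    have h2 : 0 ≤ (1 - r : ℝ) * g.1.coeff w := mul_nonneg (by linarith [r.2.2]) (g.2.1 w)
    exact add_nonneg h1 h2, by
    rw [← mass_apply, map_add, map_smul, map_smul, mass_apply, mass_apply, f.2.2, g.2.2]
    simp⟩
  cc_one f g := Subtype.ext (by simp)
  cc_self r f := Subtype.ext (by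
    change (r : ℝ) • f.1 + (1 - r : ℝ) • f.1 = f.1
    module)
  cc_symm r f g := Subtype.ext (by
    change (r : ℝ) • f.1 + (1 - r : ℝ) • g.1 =
      (1 - r : ℝ) • g.1 + (1 - (1 - r) : ℝ) • f.1
    module)
  cc_assoc p q r s f g h h1 h2 := Subtype.ext (by
    change (q : ℝ) • ((p : ℝ) • f.1 + (1 - p : ℝ) • g.1) + (1 - q : ℝ) • h.1 =
      (r : ℝ) • f.1 + (1 - r : ℝ) • ((s : ℝ) • g.1 + (1 - s : ℝ) • h.1)
    have h3 : (1 - r : ℝ) * (1 - s) = 1 - q := by
      rw [mul_sub, h2, h1]
      ring
    rw [smul_add, smul_add, smul_smul, smul_smul, smul_smul, smul_smul, h2, h3, h1, mul_comm (q : ℝ),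
      add_assoc])
  cc_mul r f g h := Subtype.ext (by
    change ((r : ℝ) • f.1 + (1 - r : ℝ) • g.1) * h.1 =
      (r : ℝ) • (f.1 * h.1) + (1 - r : ℝ) • (g.1 * h.1)
    rw [add_mul, smul_mul_assoc, smul_mul_assoc])
  mul_cc r f g h := Subtype.ext (by
    change f.1 * ((r : ℝ) • g.1 + (1 - r : ℝ) • h.1) =
      (r : ℝ) • (f.1 * g.1) + (1 - r : ℝ) • (f.1 * h.1)
    rw [mul_add, mul_smul_comm, mul_smul_comm])

/-- The convex monoid `M` is finitely presentable: it is isomorphic to the quotient of the free convex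
monoid `Dist (FreeMonoid G)` on a finite set `G` by the congruence generated by finitely many pairs. -/
def FinitelyPresentable (M : Type) [ConvexMonoid M] : Prop :=
  ∃ (G : Type) (_ : Finite G) (R : Set (Dist (FreeMonoid G) × Dist (FreeMonoid G))),
    R.Finite ∧ Nonempty (Iso (gen R).Quot M)

/-! ## Probabilistic languages -/

/-- The affine extension of `L` to distributions. -/
noncomputable def hat {A : Type} (L : FreeMonoid A → ℝ) (f : MonoidAlgebra ℝ (FreeMonoid A)) : ℝ :=
  f.coeff.sum fun w r => r * L w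

/-- The affine extension as a linear map. -/
noncomputable def hatLin {A : Type} (L : FreeMonoid A → ℝ) :
    MonoidAlgebra ℝ (FreeMonoid A) →ₗ[ℝ] ℝ where
  toFun := hat L
  map_add' f g := by
    classical
    unfold hat
    rw [MonoidAlgebra.coeff_add]
    exact Finsupp.sum_add_index (by simp) (by intros; ring)
  map_smul' c f := by
    unfold hat
    rw [MonoidAlgebra.coeff_smul, Finsupp.sum_smul_index (by simp), RingHom.id_apply, smul_eq_mul,
      Finsupp.sum, Finsupp.sum, Finset.mul_sum]
    exact Finset.sum_congr rfl fun _ _ => by ring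

/-- The syntactic congruence on elements of the monoid algebra. -/
def SynRel {A : Type} (L : FreeMonoid A → ℝ) (f g : MonoidAlgebra ℝ (FreeMonoid A)) : Prop :=
  ∀ x y : FreeMonoid A, hat L (MonoidAlgebra.single x 1 * f * MonoidAlgebra.single y 1) =
    hat L (MonoidAlgebra.single x 1 * g * MonoidAlgebra.single y 1)

theorem synRel_lin {A : Type} {L : FreeMonoid A → ℝ} {f f' : MonoidAlgebra ℝ (FreeMonoid A)}
    (h : SynRel L f f') (g g' : MonoidAlgebra ℝ (FreeMonoid A)) :
    hat L (g * f * g') = hat L (g * f' * g') := by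
  change hatLin L (g * f * g') = hatLin L (g * f' * g')
  induction g using MonoidAlgebra.induction_linear with
  | zero => simp
  | add g₁ g₂ h1 h2 => rw [add_mul, add_mul, add_mul, add_mul, map_add, map_add, h1, h2]
  | single x a =>
    induction g' using MonoidAlgebra.induction_linear with
    | zero => simp
    | add g₁ g₂ h1 h2 => rw [mul_add, mul_add, map_add, map_add, h1, h2]
    | single y b =>
      have h1 : (MonoidAlgebra.single x a : MonoidAlgebra ℝ (FreeMonoid A)) =
          a • MonoidAlgebra.single x 1 := by simp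
      have h2 : (MonoidAlgebra.single y b : MonoidAlgebra ℝ (FreeMonoid A)) =
          b • MonoidAlgebra.single y 1 := by simp
      rw [h1, h2, smul_mul_assoc, smul_mul_assoc, smul_mul_assoc, smul_mul_assoc, mul_smul_comm,
        mul_smul_comm, map_smul, map_smul, map_smul, map_smul]
      congr 2
      exact h x y

/-- The syntactic congruence of `L`. -/
def synCong {A : Type} (L : FreeMonoid A → ℝ) : Cong (Dist (FreeMonoid A)) where
  rel μ ν := SynRel L μ.1 ν.1
  equiv := ⟨fun _ _ _ => rfl, fun h x y => (h x y).symm, fun h h' x y => (h x y).trans (h' x y)⟩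
  cc r f f' g g' h h' := by
    intro x y
    change hatLin L (MonoidAlgebra.single x 1 * ((r : ℝ) • f.1 + (1 - r : ℝ) • g.1) *
      MonoidAlgebra.single y 1) = hatLin L (MonoidAlgebra.single x 1 *
      ((r : ℝ) • f'.1 + (1 - r : ℝ) • g'.1) * MonoidAlgebra.single y 1)
    rw [mul_add, add_mul, mul_smul_comm, mul_smul_comm, smul_mul_assoc, smul_mul_assoc, map_add,
      map_smul, map_smul, mul_add, add_mul, mul_smul_comm, mul_smul_comm, smul_mul_assoc,
      smul_mul_assoc, map_add, map_smul, map_smul]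
    congr 2
    · exact h x y
    · exact h' x y
  mul f f' g g' h h' := by
    intro x y
    change hat L (MonoidAlgebra.single x 1 * (f.1 * g.1) * MonoidAlgebra.single y 1) =
      hat L (MonoidAlgebra.single x 1 * (f'.1 * g'.1) * MonoidAlgebra.single y 1)
    have h1 := synRel_lin h (MonoidAlgebra.single x 1) (g.1 * MonoidAlgebra.single y 1)
    have h2 := synRel_lin h' (MonoidAlgebra.single x 1 * f'.1) (MonoidAlgebra.single y 1)
    simp only [mul_assoc] at h1 h2 ⊢
    rw [h1, h2]

/-- The syntactic convex monoid of `L`. -/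
abbrev Syn {A : Type} (L : FreeMonoid A → ℝ) : Type := (synCong L).Quot

/-- A probabilistic finite automaton over the alphabet `A`. -/
structure PFA (A : Type) where
  /-- the states -/
  Q : Type
  fin : Fintype Q
  /-- the initial distribution -/
  init : Q → ℝ
  init_dist : (∀ q, 0 ≤ init q) ∧ ∑ q, init q = 1
  /-- the transition distributions -/
  step : Q → A → Q → ℝ
  step_dist : ∀ q a, (∀ q', 0 ≤ step q a q') ∧ ∑ q', step q a q' = 1
  /-- the output -/
  out : Q → ℝ
  out_mem : ∀ q, 0 ≤ out q ∧ out q ≤ 1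

/-- The distribution of the state after the random run on `w`. -/
noncomputable def PFA.run {A : Type} (P : PFA A) (w : List A) : P.Q → ℝ :=
  w.foldl (fun d a q' => letI := P.fin; ∑ q, d q * P.step q a q') P.init

/-- The expected value of the output at the state reached by the random run on `w`. -/
noncomputable def PFA.value {A : Type} (P : PFA A) (w : List A) : ℝ :=
  letI := P.fin
  ∑ q, P.run w q * P.out q

/-! ## The language -/

/-- The language. -/
noncomputable def lang (A : Type) (w : FreeMonoid A) : ℝ :=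
  ((1 / 2) ^ w.length + (1 / 3) ^ w.length) / 2

/-- The probability of staying in the states `true` and `false`. -/
noncomputable def stay (b : Bool) : ℝ := if b then 1 / 2 else 1 / 3

theorem stay_mem (b : Bool) : 0 ≤ stay b ∧ stay b ≤ 1 := by
  cases b <;> norm_num [stay]

/-- The automaton. -/
noncomputable def aut (A : Type) : PFA A where
  Q := Option Bool
  fin := inferInstance
  init q := match q with
    | none => 0
    | some _ => 1 / 2
  init_dist := ⟨fun q => by rcases q with _ | _ <;> norm_num, by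
    rw [Fintype.sum_option, Fintype.sum_bool]; norm_num⟩
  step q _ q' := match q, q' with
    | none, none => 1
    | none, some _ => 0
    | some b, none => 1 - stay b
    | some true, some true => stay true
    | some false, some false => stay false
    | some true, some false => 0
    | some false, some true => 0
  step_dist q a := by
    refine ⟨fun q' => ?_, ?_⟩
    · have h1 := stay_mem true
      have h2 := stay_mem false
      rcases q with _ | _ | _ <;> rcases q' with _ | _ | _ <;> dsimp only <;> linarith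
    · rcases q with _ | _ | _ <;> rw [Fintype.sum_option, Fintype.sum_bool] <;> norm_num
  out q := match q with
    | none => 0
    | some _ => 1
  out_mem q := by rcases q with _ | _ <;> norm_num

theorem aut_run {A : Type} (w : List A) (b : Bool) :
    (aut A).run w (some b) = stay b ^ w.length / 2 := by
  induction w using List.reverseRecOn with
  | nil =>
    change (1 / 2 : ℝ) = _
    simp
  | append_singleton w a ih =>
    have h : (aut A).run (w ++ [a]) (some b) =
        ∑ q : Option Bool, (aut A).run w q * (aut A).step q a (some b) := by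
      rw [PFA.run, List.foldl_append]
      rfl
    have h1 : ∀ b', (aut A).step (some b') a (some b) = if b' = b then stay b else 0 := by
      intro b'
      cases b <;> cases b' <;> rfl
    have h2 : (aut A).step none a (some b) = 0 := rfl
    rw [h, Fintype.sum_option, Fintype.sum_bool, h1, h1, h2, List.length_append]
    cases b
    · simp only [Bool.true_eq_false, if_false, if_true]
      rw [ih]
      simp
      ring
    · simp only [Bool.false_eq_true, if_false, if_true]
      rw [ih]
      simp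
      ring

theorem aut_value {A : Type} (w : List A) :
    (aut A).value w = ((1 / 2) ^ w.length + (1 / 3) ^ w.length) / 2 := by
  have h : (aut A).value w = ∑ q : Option Bool, (aut A).run w q * (aut A).out q := rfl
  rw [h, Fintype.sum_option, Fintype.sum_bool, aut_run, aut_run]
  have h1 : (aut A).out none = 0 := rfl
  have h2 : ∀ b, (aut A).out (some b) = 1 := fun _ => rfl
  rw [h1, h2, h2, stay, stay, if_pos rfl, if_neg (by decide)]
  ring

/-! ## Polynomials -/

/-- The distribution of the lengths as a polynomial. -/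
noncomputable def toPoly (A : Type) : MonoidAlgebra ℝ (FreeMonoid A) →ₐ[ℝ] ℝ[X] :=
  MonoidAlgebra.lift ℝ ℝ[X] (FreeMonoid A) (FreeMonoid.lift fun _ => X)

theorem toPoly_single {A : Type} (w : FreeMonoid A) (r : ℝ) :
    toPoly A (MonoidAlgebra.single w r) = r • X ^ w.length := by
  rw [toPoly, MonoidAlgebra.lift_single]
  congr 1
  induction w using FreeMonoid.inductionOn' with
  | one => simp
  | of_mul a w ih => rw [map_mul, ih, FreeMonoid.lift_eval_of, FreeMonoid.length_mul,
      FreeMonoid.length_of, pow_add, pow_one]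

theorem hat_eq {A : Type} (f : MonoidAlgebra ℝ (FreeMonoid A)) :
    hat (lang A) f = ((toPoly A f).eval (1 / 2) + (toPoly A f).eval (1 / 3)) / 2 := by
  change hatLin (lang A) f = _
  induction f using MonoidAlgebra.induction_linear with
  | zero => simp
  | add f g hf hg => rw [map_add, hf, hg, map_add, eval_add, eval_add]; ring
  | single w r =>
    rw [toPoly_single]
    change hat (lang A) _ = _
    rw [hat, MonoidAlgebra.coeff_single, Finsupp.sum_single_index (by simp), lang]
    simp only [eval_smul, eval_pow, eval_X, smul_eq_mul]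
    ring

theorem synRel_iff {A : Type} [Nonempty A] (f g : MonoidAlgebra ℝ (FreeMonoid A)) :
    SynRel (lang A) f g ↔ (toPoly A f).eval (1 / 2) = (toPoly A g).eval (1 / 2) ∧
      (toPoly A f).eval (1 / 3) = (toPoly A g).eval (1 / 3) := by
  constructor
  · intro h
    obtain ⟨a⟩ := ‹Nonempty A›
    have h1 := h 1 1
    have h2 := h 1 (FreeMonoid.of a)
    rw [hat_eq, hat_eq] at h1 h2
    simp only [map_mul, toPoly_single, eval_mul, eval_smul, eval_X, smul_eq_mul,
      FreeMonoid.length_one, FreeMonoid.length_of, pow_zero, pow_one, mul_one, one_mul,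
      eval_one] at h1 h2
    constructor <;> linarith
  · rintro ⟨h1, h2⟩ x y
    rw [hat_eq, hat_eq]
    simp only [map_mul, eval_mul, h1, h2]

/-- Polynomials with nonnegative coefficients and total mass `1`. -/
def PD (p : ℝ[X]) : Prop := (∀ k, 0 ≤ p.coeff k) ∧ p.eval 1 = 1

theorem PD.X_pow (n : ℕ) : PD (X ^ n) :=
  ⟨fun k => by rw [coeff_X_pow]; split_ifs <;> norm_num, by simp⟩

theorem PD.mul {p q : ℝ[X]} (hp : PD p) (hq : PD q) : PD (p * q) :=
  ⟨fun k => by
    rw [coeff_mul]
    exact Finset.sum_nonneg fun x _ => mul_nonneg (hp.1 _) (hq.1 _),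
    by rw [eval_mul, hp.2, hq.2, one_mul]⟩

theorem PD.cc {p q : ℝ[X]} (hp : PD p) (hq : PD q) {r : ℝ} (h0 : 0 ≤ r) (h1 : r ≤ 1) :
    PD (r • p + (1 - r) • q) :=
  ⟨fun k => by
    rw [coeff_add, coeff_smul, coeff_smul, smul_eq_mul, smul_eq_mul]
    exact add_nonneg (mul_nonneg h0 (hp.1 k)) (mul_nonneg (by linarith) (hq.1 k)),
    by rw [eval_add, eval_smul, eval_smul, hp.2, hq.2, smul_eq_mul, smul_eq_mul]; ring⟩

theorem PD.exists_pos {p : ℝ[X]} (hp : PD p) : ∃ k, 0 < p.coeff k := by
  by_contra hcon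
  push Not at hcon
  have h : p = 0 := by
    ext k
    rw [coeff_zero]
    exact le_antisymm (hcon k) (hp.1 k)
  have := hp.2
  rw [h, eval_zero] at this
  exact zero_ne_one this

theorem eval_eq_sum' {p : ℝ[X]} {N : ℕ} (hN : p.natDegree < N) (x : ℝ) :
    p.eval x = ∑ k ∈ Finset.range N, p.coeff k * x ^ k := eval_eq_sum_range' hN x

/-- The supporting line at the `n`-th point. -/
theorem support_line {n k : ℕ} (h : k ≠ n) :
    0 < 3 ^ n * (1 / 3 : ℝ) ^ k - 3 / 2 * (2 ^ n * (1 / 2) ^ k) + 1 / 2 := by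
  rcases lt_or_gt_of_ne h with h | h
  · obtain ⟨t, rfl⟩ : ∃ t, n = k + (t + 1) := ⟨n - k - 1, by omega⟩
    have h1 : (3 : ℝ) ^ (k + (t + 1)) * (1 / 3) ^ k = 3 * 3 ^ t := by
      rw [pow_add, one_div, inv_pow]
      field_simp
      ring
    have h2 : (2 : ℝ) ^ (k + (t + 1)) * (1 / 2) ^ k = 2 * 2 ^ t := by
      rw [pow_add, one_div, inv_pow]
      field_simp
      ring
    rw [h1, h2]
    have h3 : (2 : ℝ) ^ t ≤ 3 ^ t := pow_le_pow_left₀ (by norm_num) (by norm_num) t
    linarith
  · obtain ⟨t, rfl⟩ : ∃ t, k = n + (t + 1) := ⟨k - n - 1, by omega⟩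
    have h1 : (3 : ℝ) ^ n * (1 / 3) ^ (n + (t + 1)) = (1 / 3) ^ (t + 1) := by
      rw [pow_add, ← mul_assoc, ← mul_pow]
      norm_num
    have h2 : (2 : ℝ) ^ n * (1 / 2) ^ (n + (t + 1)) = (1 / 2) ^ (t + 1) := by
      rw [pow_add, ← mul_assoc, ← mul_pow]
      norm_num
    rw [h1, h2]
    rcases t with _ | t
    · norm_num
    · have h3 : (1 / 2 : ℝ) ^ (t + 1 + 1) ≤ 1 / 4 := by
        rw [pow_succ, pow_succ]
        have : (1 / 2 : ℝ) ^ t ≤ 1 := pow_le_one₀ (by norm_num) (by norm_num)
        linarith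
      have h4 : (0 : ℝ) < (1 / 3) ^ (t + 1 + 1) := by positivity
      linarith

/-- The points `(2 ^ (-n), 3 ^ (-n))` have only the trivial representation. -/
theorem eq_X_pow {q : ℝ[X]} (hq : PD q) {n : ℕ} (h2 : q.eval (1 / 2) = (1 / 2) ^ n)
    (h3 : q.eval (1 / 3) = (1 / 3) ^ n) : q = X ^ n := by
  set N := q.natDegree + n + 1 with hN
  have hN' : q.natDegree < N := by omega
  have e1 := eval_eq_sum' hN' 1
  have e2 := eval_eq_sum' hN' (1 / 2)
  have e3 := eval_eq_sum' hN' (1 / 3)
  rw [hq.2] at e1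
  rw [h2] at e2
  rw [h3] at e3
  have key : ∑ k ∈ Finset.range N, q.coeff k *
      (3 ^ n * (1 / 3 : ℝ) ^ k - 3 / 2 * (2 ^ n * (1 / 2) ^ k) + 1 / 2) = 0 := by
    have : ∀ k, q.coeff k * (3 ^ n * (1 / 3 : ℝ) ^ k - 3 / 2 * (2 ^ n * (1 / 2) ^ k) + 1 / 2) =
        3 ^ n * (q.coeff k * (1 / 3) ^ k) - 3 / 2 * 2 ^ n * (q.coeff k * (1 / 2) ^ k) +
          1 / 2 * (q.coeff k * 1 ^ k) := fun k => by rw [one_pow]; ring
    rw [Finset.sum_congr rfl fun k _ => this k, Finset.sum_add_distrib, Finset.sum_sub_distrib,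
      ← Finset.mul_sum, ← Finset.mul_sum, ← Finset.mul_sum, ← e1, ← e2, ← e3, ← mul_pow, mul_assoc,
      ← mul_pow]
    norm_num
  have hnn : ∀ k ∈ Finset.range N, 0 ≤ q.coeff k *
      (3 ^ n * (1 / 3 : ℝ) ^ k - 3 / 2 * (2 ^ n * (1 / 2) ^ k) + 1 / 2) := by
    intro k _
    refine mul_nonneg (hq.1 k) ?_
    by_cases hk : k = n
    · subst hk
      rw [← mul_pow, ← mul_pow]
      norm_num
    · exact (support_line hk).le
  have hz := (Finset.sum_eq_zero_iff_of_nonneg hnn).1 key
  have hc : ∀ k, k ≠ n → q.coeff k = 0 := by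
    intro k hk
    by_cases hkN : k < N
    · rcases mul_eq_zero.1 (hz k (Finset.mem_range.2 hkN)) with h | h
      · exact h
      · exact absurd h (support_line hk).ne'
    · exact coeff_eq_zero_of_natDegree_lt (by omega)
  have hn : q.coeff n = 1 := by
    rw [Finset.sum_eq_single n (fun k _ hk => by rw [hc k hk, zero_mul])
      (fun h => absurd (Finset.mem_range.2 (by omega)) h), one_pow, mul_one] at e1
    exact e1.symm
  ext k
  rw [coeff_X_pow]
  split_ifs with hk
  · rw [hk, hn]
  · exact hc k hk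

/-- There are two terms whose exponents have a distance less than `K`. -/
def Act (K : ℕ) (p : ℝ[X]) : Prop := ∃ i j, i < j ∧ j < i + K ∧ 0 < p.coeff i ∧ 0 < p.coeff j

theorem act_of_ne {K : ℕ} {p q : ℝ[X]} (hp : PD p) (hq : PD q) (hd : p.natDegree < K)
    (h2 : p.eval (1 / 2) = q.eval (1 / 2)) (h3 : p.eval (1 / 3) = q.eval (1 / 3)) (hne : p ≠ q) :
    Act K p := by
  by_contra hcon
  obtain ⟨n, hn⟩ := hp.exists_pos
  have hle : ∀ k, 0 < p.coeff k → k < K := by
    intro k hk
    by_contra h
    rw [coeff_eq_zero_of_natDegree_lt (by omega)] at hk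
    exact lt_irrefl _ hk
  have hz : ∀ k, k ≠ n → p.coeff k = 0 := by
    intro k hk
    by_contra h
    have hk' : 0 < p.coeff k := lt_of_le_of_ne (hp.1 k) (Ne.symm h)
    have h1 := hle k hk'
    have h2 := hle n hn
    rcases lt_or_gt_of_ne hk with h | h
    · exact hcon ⟨k, n, h, by omega, hk', hn⟩
    · exact hcon ⟨n, k, h, by omega, hn, hk'⟩
  have hpX : p = p.coeff n • X ^ n := by
    ext k
    rw [coeff_smul, coeff_X_pow, smul_eq_mul]
    split_ifs with hk
    · rw [hk, mul_one]
    · rw [hz k hk, mul_zero]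
  have h1 : p.coeff n = 1 := by
    have := hp.2
    rw [hpX, eval_smul, eval_pow, eval_X, one_pow, smul_eq_mul, mul_one] at this
    exact this
  rw [h1, one_smul] at hpX
  apply hne
  rw [hpX]
  refine (eq_X_pow hq ?_ ?_).symm
  · rw [← h2, hpX, eval_pow, eval_X]
  · rw [← h3, hpX, eval_pow, eval_X]

theorem Act.mul {K : ℕ} {p q : ℝ[X]} (h : Act K p) (hp : PD p) (hq : PD q) : Act K (p * q) := by
  obtain ⟨i, j, hij, hjK, hi, hj⟩ := h
  obtain ⟨k, hk⟩ := hq.exists_pos
  have key : ∀ i, 0 < p.coeff i → 0 < (p * q).coeff (i + k) := by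
    intro i hi
    rw [coeff_mul]
    refine lt_of_lt_of_le (mul_pos hi hk) ?_
    exact Finset.single_le_sum (f := fun x : ℕ × ℕ => p.coeff x.1 * q.coeff x.2)
      (fun x _ => mul_nonneg (hp.1 _) (hq.1 _)) (a := (i, k))
      (Finset.HasAntidiagonal.mem_antidiagonal.2 rfl)
  exact ⟨i + k, j + k, by omega, by omega, key i hi, key j hj⟩

theorem Act.cc {K : ℕ} {p q : ℝ[X]} (h : Act K p) (hq : PD q) {r : ℝ} (h0 : 0 < r) (h1 : r ≤ 1) :
    Act K (r • p + (1 - r) • q) := by
  obtain ⟨i, j, hij, hjK, hi, hj⟩ := h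
  have key : ∀ i, 0 < p.coeff i → 0 < (r • p + (1 - r) • q).coeff i := by
    intro i hi
    rw [coeff_add, coeff_smul, coeff_smul, smul_eq_mul, smul_eq_mul]
    exact add_pos_of_pos_of_nonneg (mul_pos h0 hi) (mul_nonneg (by linarith) (hq.1 i))
  exact ⟨i, j, hij, hjK, key i hi, key j hj⟩

/-- The auxiliary relation. -/
def Rel (K : ℕ) (p q : ℝ[X]) : Prop :=
  p = q ∨ (Act K p ∧ Act K q ∧ p.eval (1 / 2) = q.eval (1 / 2) ∧ p.eval (1 / 3) = q.eval (1 / 3))

theorem Rel.eval {K : ℕ} {p q : ℝ[X]} (h : Rel K p q) :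
    p.eval (1 / 2) = q.eval (1 / 2) ∧ p.eval (1 / 3) = q.eval (1 / 3) := by
  rcases h with rfl | h
  · exact ⟨rfl, rfl⟩
  · exact h.2.2

theorem Rel.mul {K : ℕ} {p p' q q' : ℝ[X]} (h : Rel K p p') (h' : Rel K q q') (hp : PD p)
    (hp' : PD p') (hq : PD q) (hq' : PD q') : Rel K (p * q) (p' * q') := by
  have e := h.eval
  have e' := h'.eval
  have ev : (p * q).eval (1 / 2) = (p' * q').eval (1 / 2) ∧
      (p * q).eval (1 / 3) = (p' * q').eval (1 / 3) := by
    rw [eval_mul, eval_mul, eval_mul, eval_mul, e.1, e.2, e'.1, e'.2]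
    exact ⟨rfl, rfl⟩
  rcases h with rfl | h
  · rcases h' with rfl | h'
    · exact Or.inl rfl
    · right
      refine ⟨?_, ?_, ev⟩
      · rw [mul_comm]; exact h'.1.mul hq hp
      · rw [mul_comm]; exact h'.2.1.mul hq' hp
  · exact Or.inr ⟨h.1.mul hp hq, h.2.1.mul hp' hq', ev⟩

theorem Rel.cc {K : ℕ} {p p' q q' : ℝ[X]} (h : Rel K p p') (h' : Rel K q q') (hp : PD p)
    (hp' : PD p') (hq : PD q) (hq' : PD q') {r : ℝ} (h0 : 0 ≤ r) (h1 : r ≤ 1) :
    Rel K (r • p + (1 - r) • q) (r • p' + (1 - r) • q') := by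
  rcases h0.eq_or_lt with rfl | h0
  · simpa using h'
  rcases h1.eq_or_lt with rfl | h1
  · simpa using h
  have e := h.eval
  have e' := h'.eval
  have ev : (r • p + (1 - r) • q).eval (1 / 2) = (r • p' + (1 - r) • q').eval (1 / 2) ∧
      (r • p + (1 - r) • q).eval (1 / 3) = (r • p' + (1 - r) • q').eval (1 / 3) := by
    simp only [eval_add, eval_smul, e.1, e.2, e'.1, e'.2, and_self]
  rcases h with rfl | h
  · rcases h' with rfl | h'
    · exact Or.inl rfl
    · right
      have hr : (0 : ℝ) < 1 - r := by linarith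
      have hr' : (1 - r : ℝ) ≤ 1 := by linarith
      refine ⟨?_, ?_, ev⟩
      · have := h'.1.cc hp hr hr'
        rw [sub_sub_cancel, add_comm] at this
        exact this
      · have := h'.2.1.cc hp hr hr'
        rw [sub_sub_cancel, add_comm] at this
        exact this
  · exact Or.inr ⟨h.1.cc hq h0 h1.le, h.2.1.cc hq' h0 h1.le, ev⟩

/-! ## Distributions are obtained from point masses by convex combinations -/

theorem dist_induction {W : Type} [Monoid W] {C : Dist W → Prop} (h1 : ∀ w, C (point w))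
    (h2 : ∀ (r : unitInterval) (f g : Dist W), C f → C g → C (cc r f g)) (f : Dist W) : C f := by
  classical
  have main : ∀ n : ℕ, ∀ f : Dist W, f.1.coeff.support.card = n → C f := by
    intro n
    induction n with
    | zero =>
      intro f hf
      exfalso
      have h0 : f.1.coeff = 0 := Finsupp.support_eq_empty.1 (Finset.card_eq_zero.1 hf)
      have := f.2.2
      rw [h0] at this
      simp at this
    | succ n ih =>
      intro f hf
      obtain ⟨w, hw⟩ := Finset.card_pos.1 (by omega : 0 < f.1.coeff.support.card)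
      have hw0 : 0 < f.1.coeff w := lt_of_le_of_ne (f.2.1 w) (Ne.symm (Finsupp.mem_support_iff.1 hw))
      have hsum : f.1.coeff w + ∑ v ∈ f.1.coeff.support.erase w, f.1.coeff v = 1 := by
        rw [Finset.add_sum_erase _ _ hw]
        exact f.2.2
      have hnn : 0 ≤ ∑ v ∈ f.1.coeff.support.erase w, f.1.coeff v :=
        Finset.sum_nonneg fun v _ => f.2.1 v
      rcases (by linarith : f.1.coeff w ≤ 1).eq_or_lt with h | h
      · have hz : ∀ v, v ≠ w → f.1.coeff v = 0 := by
          intro v hv
          by_cases hv' : v ∈ f.1.coeff.support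
          · have h0 : ∑ v ∈ f.1.coeff.support.erase w, f.1.coeff v = 0 := by linarith
            exact (Finset.sum_eq_zero_iff_of_nonneg fun v _ => f.2.1 v).1 h0 v
              (Finset.mem_erase.2 ⟨hv, hv'⟩)
          · exact Finsupp.notMem_support_iff.1 hv'
        have hf' : f = point w := by
          refine Subtype.ext (MonoidAlgebra.ext (Finsupp.ext fun v => ?_))
          change _ = (MonoidAlgebra.single w (1 : ℝ)).coeff v
          rw [MonoidAlgebra.coeff_single, Finsupp.single_apply]
          split_ifs with hv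
          · rw [← hv, h]
          · exact hz v fun h' => hv h'.symm
        rw [hf']
        exact h1 w
      · have hpos : 0 < 1 - f.1.coeff w := by linarith
        let g : Dist W := ⟨(1 / (1 - f.1.coeff w)) • f.1.erase w, fun v => by
          rw [MonoidAlgebra.coeff_smul_apply, MonoidAlgebra.coeff_erase, Finsupp.erase_apply]
          split_ifs
          · simp
          · exact mul_nonneg (by positivity) (f.2.1 v), by
          rw [MonoidAlgebra.coeff_smul, Finsupp.sum_smul_index (by simp), MonoidAlgebra.coeff_erase,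
            Finsupp.sum, Finsupp.support_erase, ← Finset.mul_sum,
            Finset.sum_congr rfl fun v hv => Finsupp.erase_ne (Finset.ne_of_mem_erase hv),
            show ∑ v ∈ f.1.coeff.support.erase w, f.1.coeff v = 1 - f.1.coeff w by linarith]
          field_simp⟩
        have hg : g.1.coeff.support = f.1.coeff.support.erase w := by
          change ((1 / (1 - f.1.coeff w)) • f.1.coeff.erase w).support = _
          rw [Finsupp.support_smul_eq (by positivity), Finsupp.support_erase]
        have hCg : C g := ih g (by rw [hg, Finset.card_erase_of_mem hw]; omega)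
        have hfg : f = cc ⟨f.1.coeff w, hw0.le, h.le⟩ (point w) g := by
          refine Subtype.ext ?_
          change f.1 = f.1.coeff w • MonoidAlgebra.single w (1 : ℝ) + (1 - f.1.coeff w) •
            ((1 / (1 - f.1.coeff w)) • f.1.erase w)
          rw [smul_smul, mul_one_div_cancel hpos.ne', one_smul, MonoidAlgebra.smul_single,
            smul_eq_mul, mul_one, MonoidAlgebra.single_add_erase]
        rw [hfg]
        exact h2 _ _ _ (h1 w) hCg
  exact main _ f rfl

/-- The syntactic convex monoid of the language is not finitely presentable. -/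
theorem not_fp (A : Type) [Nonempty A] : ¬ FinitelyPresentable (Syn (lang A)) := by
  rintro ⟨G, _, R, hR, ⟨F⟩⟩
  -- representatives of the images of the generators
  have hrep : ∀ x : Syn (lang A), ∃ μ : Dist (FreeMonoid A), (synCong (lang A)).cls μ = x :=
    fun x => Quotient.exists_rep x
  choose rep hrep using hrep
  set q : Dist (FreeMonoid G) → Syn (lang A) := fun s => F.toEquiv ((gen R).cls s) with hq
  set P : Dist (FreeMonoid G) → ℝ[X] := fun s => toPoly A (rep (q s)).1 with hP
  have hmk : ∀ μ ν : Dist (FreeMonoid A), (synCong (lang A)).cls μ = (synCong (lang A)).cls ν ↔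
      (toPoly A μ.1).eval (1 / 2) = (toPoly A ν.1).eval (1 / 2) ∧
      (toPoly A μ.1).eval (1 / 3) = (toPoly A ν.1).eval (1 / 3) := by
    intro μ ν
    rw [← synRel_iff]
    exact Quotient.eq (r := (synCong (lang A)).setoid)
  have hPD : ∀ μ : Dist (FreeMonoid A), PD (toPoly A μ.1) := by
    refine dist_induction (fun w => ?_) fun r f g hf hg => ?_
    · have : toPoly A (point w).1 = X ^ w.length := by
        change toPoly A (MonoidAlgebra.single w 1) = _
        rw [toPoly_single, one_smul]
      rw [this]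
      exact PD.X_pow _
    · have : toPoly A (cc r f g).1 = (r : ℝ) • toPoly A f.1 + (1 - r : ℝ) • toPoly A g.1 := by
        change toPoly A ((r : ℝ) • f.1 + (1 - r : ℝ) • g.1) = _
        rw [map_add, map_smul, map_smul]
      rw [this]
      exact hf.cc hg r.2.1 r.2.2
  -- the values of the images
  have hqmul : ∀ s t, q (s * t) = q s * q t := fun s t =>
    F.map_mul ((gen R).cls s) ((gen R).cls t)
  have hqone : q 1 = 1 := F.map_one
  have hqcc : ∀ r s t, q (cc r s t) = cc r (q s) (q t) := fun r s t =>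
    F.map_cc r ((gen R).cls s) ((gen R).cls t)
  have hPmul : ∀ s t, (P (s * t)).eval (1 / 2) = (P s).eval (1 / 2) * (P t).eval (1 / 2) ∧
      (P (s * t)).eval (1 / 3) = (P s).eval (1 / 3) * (P t).eval (1 / 3) := by
    intro s t
    have h : (synCong (lang A)).cls (rep (q (s * t))) =
        (synCong (lang A)).cls (rep (q s) * rep (q t)) := by
      rw [hrep, hqmul]
      conv_lhs => rw [← hrep (q s), ← hrep (q t)]
      rfl
    have h' := (hmk _ _).1 h
    have e : toPoly A (rep (q s) * rep (q t)).1 = toPoly A (rep (q s)).1 * toPoly A (rep (q t)).1 :=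
      map_mul (toPoly A) _ _
    rw [e, eval_mul, eval_mul] at h'
    exact h'
  have hPone : (P 1).eval (1 / 2) = 1 ∧ (P 1).eval (1 / 3) = 1 := by
    have h : (synCong (lang A)).cls (rep (q 1)) = (synCong (lang A)).cls 1 := by
      rw [hrep, hqone]
      rfl
    have h' := (hmk _ _).1 h
    have e : toPoly A (1 : Dist (FreeMonoid A)).1 = 1 := map_one (toPoly A)
    rw [e, eval_one, eval_one] at h'
    exact h'
  have hPcc : ∀ r s t, (P (cc r s t)).eval (1 / 2) =
      r * (P s).eval (1 / 2) + (1 - r) * (P t).eval (1 / 2) ∧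
      (P (cc r s t)).eval (1 / 3) = r * (P s).eval (1 / 3) + (1 - r) * (P t).eval (1 / 3) := by
    intro r s t
    have h : (synCong (lang A)).cls (rep (q (cc r s t))) =
        (synCong (lang A)).cls (cc r (rep (q s)) (rep (q t))) := by
      rw [hrep, hqcc]
      conv_lhs => rw [← hrep (q s), ← hrep (q t)]
      rfl
    have h' := (hmk _ _).1 h
    have e : toPoly A (cc r (rep (q s)) (rep (q t))).1 =
        (r : ℝ) • toPoly A (rep (q s)).1 + (1 - r : ℝ) • toPoly A (rep (q t)).1 := by
      change toPoly A ((r : ℝ) • (rep (q s)).1 + (1 - r : ℝ) • (rep (q t)).1) = _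
      rw [map_add, map_smul, map_smul]
    rw [e] at h'
    simp only [eval_add, eval_smul, smul_eq_mul] at h'
    exact h'
  -- the substitution
  set Ψ : MonoidAlgebra ℝ (FreeMonoid G) →ₐ[ℝ] ℝ[X] :=
    MonoidAlgebra.lift ℝ ℝ[X] (FreeMonoid G) (FreeMonoid.lift fun g => P (point (FreeMonoid.of g)))
    with hΨ
  have hΨmul : ∀ s t : Dist (FreeMonoid G), Ψ (s * t).1 = Ψ s.1 * Ψ t.1 := fun s t => map_mul Ψ _ _
  have hΨone : Ψ (1 : Dist (FreeMonoid G)).1 = 1 := map_one Ψ
  have hΨcc : ∀ (r : unitInterval) (s t : Dist (FreeMonoid G)),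
      Ψ (cc r s t).1 = (r : ℝ) • Ψ s.1 + (1 - r : ℝ) • Ψ t.1 := by
    intro r s t
    change Ψ ((r : ℝ) • s.1 + (1 - r : ℝ) • t.1) = _
    rw [map_add, map_smul, map_smul]
  have hΨpow : ∀ (s : Dist (FreeMonoid G)) (n : ℕ), Ψ (s ^ n).1 = Ψ s.1 ^ n := by
    intro s n
    induction n with
    | zero => rw [pow_zero, pow_zero]; exact hΨone
    | succ n ih => rw [pow_succ, hΨmul, ih, pow_succ]
  have hpm : ∀ v w : FreeMonoid G, point (v * w) = point v * point w := by
    intro v w
    refine Subtype.ext ?_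
    change MonoidAlgebra.single (v * w) (1 : ℝ) =
      MonoidAlgebra.single v (1 : ℝ) * MonoidAlgebra.single w (1 : ℝ)
    rw [MonoidAlgebra.single_mul_single, one_mul]
  have hΨPD : ∀ s : Dist (FreeMonoid G), PD (Ψ s.1) := by
    refine dist_induction (fun w => ?_) fun r f g hf hg => ?_
    · induction w using FreeMonoid.inductionOn' with
      | one =>
        change PD (Ψ (1 : Dist (FreeMonoid G)).1)
        rw [hΨone, ← pow_zero X]
        exact PD.X_pow 0
      | of_mul g w ih =>
        rw [hpm, hΨmul]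
        refine PD.mul ?_ ih
        change PD (Ψ (MonoidAlgebra.single (FreeMonoid.of g) 1))
        rw [hΨ, MonoidAlgebra.lift_single, one_smul, FreeMonoid.lift_eval_of]
        exact hPD _
    · rw [hΨcc]
      exact hf.cc hg r.2.1 r.2.2
  -- the substitution has the right values
  have hval : ∀ s : Dist (FreeMonoid G), (Ψ s.1).eval (1 / 2) = (P s).eval (1 / 2) ∧
      (Ψ s.1).eval (1 / 3) = (P s).eval (1 / 3) := by
    refine dist_induction (fun w => ?_) fun r f g hf hg => ?_
    · induction w using FreeMonoid.inductionOn' with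
      | one =>
        change (Ψ (1 : Dist (FreeMonoid G)).1).eval (1 / 2) = (P 1).eval (1 / 2) ∧
          (Ψ (1 : Dist (FreeMonoid G)).1).eval (1 / 3) = (P 1).eval (1 / 3)
        rw [hΨone, hPone.1, hPone.2, eval_one, eval_one]
        exact ⟨rfl, rfl⟩
      | of_mul g w ih =>
        have h1 : Ψ (point (FreeMonoid.of g)).1 = P (point (FreeMonoid.of g)) := by
          change Ψ (MonoidAlgebra.single (FreeMonoid.of g) 1) = _
          rw [hΨ, MonoidAlgebra.lift_single, one_smul, FreeMonoid.lift_eval_of]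
        rw [hpm, hΨmul, eval_mul, eval_mul, (hPmul _ _).1, (hPmul _ _).2, ih.1, ih.2, h1]
        exact ⟨rfl, rfl⟩
    · rw [hΨcc, (hPcc _ _ _).1, (hPcc _ _ _).2]
      simp only [eval_add, eval_smul, smul_eq_mul, hf.1, hf.2, hg.1, hg.2, and_self]
  -- the bound
  obtain ⟨K, hK⟩ : ∃ K : ℕ, ∀ p ∈ R, (Ψ p.1.1).natDegree < K ∧ (Ψ p.2.1).natDegree < K := by
    obtain ⟨K, hK⟩ := (hR.image fun p => (Ψ p.1.1).natDegree + (Ψ p.2.1).natDegree).bddAbove
    refine ⟨K + 1, fun p hp => ?_⟩
    have := hK ⟨p, hp, rfl⟩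
    dsimp only at this
    omega
  -- the congruence
  let C : Cong (Dist (FreeMonoid G)) :=
    { rel := fun s t => Rel K (Ψ s.1) (Ψ t.1)
      equiv := by
        refine ⟨fun s => Or.inl rfl, fun {s t} h => ?_, fun {s t u} h h' => ?_⟩
        · rcases h with h | h
          · exact Or.inl h.symm
          · exact Or.inr ⟨h.2.1, h.1, h.2.2.1.symm, h.2.2.2.symm⟩
        · rcases h with h | h
          · rw [h]; exact h'
          · rcases h' with h' | h'
            · rw [← h']; exact Or.inr h
            · exact Or.inr ⟨h.1, h'.2.1, h.2.2.1.trans h'.2.2.1, h.2.2.2.trans h'.2.2.2⟩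
      cc := fun r s s' t t' h h' => by
        rw [hΨcc, hΨcc]
        exact h.cc h' (hΨPD _) (hΨPD _) (hΨPD _) (hΨPD _) r.2.1 r.2.2
      mul := fun s s' t t' h h' => by
        rw [hΨmul, hΨmul]
        exact h.mul h' (hΨPD _) (hΨPD _) (hΨPD _) (hΨPD _) }
  have hqeq : ∀ s t, q s = q t ↔ (gen R).rel s t := by
    intro s t
    rw [hq]
    refine F.toEquiv.injective.eq_iff.trans ?_
    exact Quotient.eq (r := (gen R).setoid)
  have hRC : ∀ p ∈ R, C.rel p.1 p.2 := by
    intro p hp
    have h1 : q p.1 = q p.2 := (hqeq _ _).2 fun C hC => hC p hp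
    have h2 : P p.1 = P p.2 := by simp only [hP, h1]
    have h3 := hval p.1
    have h4 := hval p.2
    rw [h2] at h3
    have e2 : (Ψ p.1.1).eval (1 / 2) = (Ψ p.2.1).eval (1 / 2) := h3.1.trans h4.1.symm
    have e3 : (Ψ p.1.1).eval (1 / 3) = (Ψ p.2.1).eval (1 / 3) := h3.2.trans h4.2.symm
    change Rel K (Ψ p.1.1) (Ψ p.2.1)
    by_cases hne : Ψ p.1.1 = Ψ p.2.1
    · exact Or.inl hne
    · exact Or.inr ⟨act_of_ne (hΨPD _) (hΨPD _) (hK p hp).1 e2 e3 hne,
        act_of_ne (hΨPD _) (hΨPD _) (hK p hp).2 e2.symm e3.symm (Ne.symm hne), e2, e3⟩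
  -- an element that represents the letter
  obtain ⟨a⟩ := ‹Nonempty A›
  obtain ⟨s₁, hs₁⟩ : ∃ s₁ : Dist (FreeMonoid G),
      q s₁ = (synCong (lang A)).cls (point (FreeMonoid.of a)) := by
    obtain ⟨x, hx⟩ := F.toEquiv.surjective ((synCong (lang A)).cls (point (FreeMonoid.of a)))
    obtain ⟨s, hs⟩ := Quotient.exists_rep x
    exact ⟨s, by rw [← hx, ← hs]; rfl⟩
  have hΨs₁ : Ψ s₁.1 = X := by
    have h1 : (synCong (lang A)).cls (rep (q s₁)) =
        (synCong (lang A)).cls (point (FreeMonoid.of a)) := by rw [hrep, hs₁]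
    have h2 := (hmk _ _).1 h1
    have h3 : toPoly A (point (FreeMonoid.of a)).1 = X := by
      change toPoly A (MonoidAlgebra.single (FreeMonoid.of a) 1) = _
      rw [toPoly_single, one_smul, FreeMonoid.length_of, pow_one]
    rw [h3, eval_X, eval_X] at h2
    have h4 := hval s₁
    rw [← pow_one X]
    refine eq_X_pow (hΨPD s₁) ?_ ?_
    · rw [h4.1, pow_one]; exact h2.1
    · rw [h4.2, pow_one]; exact h2.2
  -- the two distributions
  obtain ⟨m, hm⟩ : ∃ m, m = K + 2 := ⟨_, rfl⟩
  set u : ℝ := (1 / 2) ^ m with hu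
  set v : ℝ := (1 / 3) ^ m with hv
  have hu0 : 0 < u := by positivity
  have hv0 : 0 < v := by positivity
  have hu1 : u ≤ 1 / 4 := by
    rw [hu, hm, pow_add]
    have : (1 / 2 : ℝ) ^ K ≤ 1 := pow_le_one₀ (by norm_num) (by norm_num)
    norm_num
    linarith
  have hvu : v ≤ 4 / 9 * u := by
    have h1 : v = (2 / 3 : ℝ) ^ m * u := by
      rw [hu, hv, ← mul_pow]
      norm_num
    rw [h1]
    have h2 : (2 / 3 : ℝ) ^ m ≤ 4 / 9 := by
      rw [hm, pow_add]
      have : (2 / 3 : ℝ) ^ K ≤ 1 := pow_le_one₀ (by norm_num) (by norm_num)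
      norm_num
      linarith
    exact mul_le_mul_of_nonneg_right h2 hu0.le
  have hZ1 : 0 < 1 - u := by linarith
  have hZ2 : 0 < 1 - v := by linarith
  have hZ : 0 < (1 - u) * (1 - v) := mul_pos hZ1 hZ2
  have huv : 0 < u * v := mul_pos hu0 hv0
  set α : ℝ := (u - 2 * v + u * v) / ((1 - u) * (1 - v)) with hα
  set β : ℝ := (3 * u - 4 * v + u * v) / ((1 - u) * (1 - v)) with hβ
  have hα0 : 0 < α := div_pos (by linarith) hZ
  have hα1 : α ≤ 1 := by
    rw [hα, div_le_one hZ]
    nlinarith
  have hβ0 : 0 ≤ β := div_nonneg (by linarith) hZ.le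
  have hβ1 : β ≤ 1 := by
    rw [hβ, div_le_one hZ]
    nlinarith
  set s : Dist (FreeMonoid G) := cc ⟨α, hα0.le, hα1⟩ 1 (s₁ ^ m) with hs
  set t : Dist (FreeMonoid G) := cc ⟨β, hβ0, hβ1⟩ s₁ (s₁ ^ (m + 1)) with ht
  have hΨs : Ψ s.1 = α • 1 + (1 - α) • X ^ m := by
    rw [hs, hΨcc, hΨone, hΨpow, hΨs₁]
  have hΨt : Ψ t.1 = β • X + (1 - β) • X ^ (m + 1) := by
    rw [ht, hΨcc, hΨpow, hΨs₁]
  have e2 : (Ψ s.1).eval (1 / 2) = (Ψ t.1).eval (1 / 2) := by
    rw [hΨs, hΨt]
    simp only [eval_add, eval_smul, eval_one, eval_pow, eval_X, smul_eq_mul]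
    rw [pow_succ, ← hu, hα, hβ]
    field_simp
    ring
  have e3 : (Ψ s.1).eval (1 / 3) = (Ψ t.1).eval (1 / 3) := by
    rw [hΨs, hΨt]
    simp only [eval_add, eval_smul, eval_one, eval_pow, eval_X, smul_eq_mul]
    rw [pow_succ, ← hv, hα, hβ]
    field_simp
    ring
  have hqst : q s = q t := by
    rw [← hrep (q s), ← hrep (q t)]
    refine (hmk _ _).2 ⟨?_, ?_⟩
    · exact (hval s).1.symm.trans (e2.trans (hval t).1)
    · exact (hval s).2.symm.trans (e3.trans (hval t).2)
  have hC := (hqeq s t).1 hqst C hRC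
  have hcoeff : ∀ k, (Ψ s.1).coeff k = α * (if k = 0 then 1 else 0) +
      (1 - α) * (if k = m then 1 else 0) := by
    intro k
    rw [hΨs, coeff_add, coeff_smul, coeff_smul, coeff_one, coeff_X_pow, smul_eq_mul, smul_eq_mul]
  rcases hC with h | h
  · have h1 := hcoeff 0
    rw [h, hΨt, if_pos rfl, if_neg (by omega), coeff_add, coeff_smul, coeff_smul, coeff_X_zero,
      coeff_X_pow, if_neg (by omega)] at h1
    simp at h1
    exact hα0.ne' h1.symm
  · obtain ⟨i, j, hij, hjK, hi, hj⟩ := h.1
    have hsupp : ∀ k, 0 < (Ψ s.1).coeff k → k = 0 ∨ k = m := by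
      intro k hk
      by_contra hcon
      push Not at hcon
      rw [hcoeff k, if_neg hcon.1, if_neg hcon.2] at hk
      simp at hk
    rcases hsupp i hi with h1 | h1 <;> rcases hsupp j hj with h2 | h2 <;> omega

/-- For every nonempty finite alphabet there is a PFA-computable probabilistic language whose
syntactic convex monoid is not finitely presentable. -/
theorem result : ∀ (A : Type) [Finite A] [Nonempty A], ∃ L : FreeMonoid A → ℝ,
    (∀ w, 0 ≤ L w ∧ L w ≤ 1) ∧ (∃ P : PFA A, ∀ w : FreeMonoid A, P.value (FreeMonoid.toList w) = L w) ∧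
      ¬ FinitelyPresentable (Syn L) := by
  intro A _ _
  refine ⟨lang A, fun w => ?_, ⟨aut A, fun w => aut_value (FreeMonoid.toList w)⟩, not_fp A⟩
  have h1 : (1 / 2 : ℝ) ^ w.length ≤ 1 := pow_le_one₀ (by norm_num) (by norm_num)
  have h2 : (1 / 3 : ℝ) ^ w.length ≤ 1 := pow_le_one₀ (by norm_num) (by norm_num)
  have h3 : (0 : ℝ) ≤ (1 / 2) ^ w.length := by positivity
  have h4 : (0 : ℝ) ≤ (1 / 3) ^ w.length := by positivity
  unfold lang
  constructor <;> linarith

end Pool.Agent.Results.MP_492578_lc.NotFinPres
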